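import Pool.Agent.Helper37.SN.Stmts

set_option autoImplicit false

namespace Pool.Agent.Helper38.SN

open MeasureTheory Finset Pool.Agent.Helper37.SN
open scoped ENNReal Classical

/-- average over shapes, with separated exponents -/
def PAvg (r p q C₃ : ℝ) : Prop :=
  ∀ (e n ρ : ℕ) (a₁ a₂ : ℝ) (W₁ W₂ : ℝ → ℝ) (G : Finset ℕ) (x₁ x₂ : UnitAddCircle),
  Adm (kk r) a₁ W₁ → Adm (kk r) a₂ W₂ → G.Nonempty →
  (∀ s ∈ G, s ≤ n ∧ 3 ≤ s + ρ ∧ 3 ≤ n - s + ρ) →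
  Cost r p q (fun x : TT (e + 2) => (G.card : ℝ)⁻¹ *
      ∑ s ∈ G, bmp W₁ (s + ρ) x₁ (x 0) * bmp W₂ (n - s + ρ) x₂ (x 1))
    (C₃ * a₁ * a₂ * (G.card : ℝ) ^ (-(1 - 1 / p)) * (2 : ℝ) ^ ((r - 1 / p) * ((n : ℝ) + 2 * ρ)))
    (C₃ * a₁ * a₂ * (2 : ℝ) ^ (-(((n : ℝ) + 2 * ρ) / q)))

theorem adm_nonneg {k : ℕ} {a : ℝ} {W : ℝ → ℝ} (h : Adm k a W) : 0 ≤ a :=
  (abs_nonneg _).trans (h.2.2 0 (Nat.zero_le _) 0)

theorem tb_cost {r p q C₃ : ℝ} (hA : PAvg r p q C₃) (e n ρ s : ℕ) (a₁ a₂ : ℝ) (W₁ W₂ : ℝ → ℝ)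
    (x : P2) (h₁ : Adm (kk r) a₁ W₁) (h₂ : Adm (kk r) a₂ W₂) (hs : s ≤ n) (hρ : 3 ≤ ρ) :
    Cost r p q (fun z : TT (e + 2) => tb W₁ W₂ n ρ s x (pr z))
      (C₃ * a₁ * a₂ * (2 : ℝ) ^ ((r - 1 / p) * ((n : ℝ) + 2 * ρ)))
      (C₃ * a₁ * a₂ * (2 : ℝ) ^ (-(((n : ℝ) + 2 * ρ) / q))) := by
  have h := hA e n ρ a₁ a₂ W₁ W₂ {s} x.1 x.2 h₁ h₂ (Finset.singleton_nonempty s) (by
    intro t ht
    rw [Finset.mem_singleton] at ht
    subst ht
    exact ⟨hs, by omega, by omega⟩)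
  have e1 : (fun x_1 : TT (e + 2) => (((({s} : Finset ℕ)).card : ℕ) : ℝ)⁻¹ *
      ∑ s ∈ ({s} : Finset ℕ), bmp W₁ (s + ρ) x.1 (x_1 0) * bmp W₂ (n - s + ρ) x.2 (x_1 1)) =
      fun z : TT (e + 2) => tb W₁ W₂ n ρ s x (pr z) := by
    funext z
    rw [Finset.card_singleton, Nat.cast_one, inv_one, one_mul, Finset.sum_singleton]
    rfl
  rw [e1, Finset.card_singleton, Nat.cast_one, Real.one_rpow, mul_one] at h
  exact h

theorem avg_cost {r p q C₃ : ℝ} (hA : PAvg r p q C₃) (e n ρ : ℕ) (a₁ a₂ : ℝ) (W₁ W₂ : ℝ → ℝ)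
    (G : Finset ℕ) (x : P2) (h₁ : Adm (kk r) a₁ W₁) (h₂ : Adm (kk r) a₂ W₂) (hG : G.Nonempty)
    (hs : ∀ s ∈ G, s ≤ n) (hρ : 3 ≤ ρ) :
    Cost r p q (fun z : TT (e + 2) => (G.card : ℝ)⁻¹ * ∑ s ∈ G, tb W₁ W₂ n ρ s x (pr z))
      (C₃ * a₁ * a₂ * (G.card : ℝ) ^ (-(1 - 1 / p)) * (2 : ℝ) ^ ((r - 1 / p) * ((n : ℝ) + 2 * ρ)))
      (C₃ * a₁ * a₂ * (2 : ℝ) ^ (-(((n : ℝ) + 2 * ρ) / q))) := by
  have h := hA e n ρ a₁ a₂ W₁ W₂ G x.1 x.2 h₁ h₂ hG (by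
    intro t ht
    have := hs t ht
    exact ⟨this, by omega, by omega⟩)
  exact h

theorem CCO (hAVG : ST_AVG) (hTA : ST_TAYA) (hTB : ST_TAYB) (hCST : ST_CST) : ST_CCO := by
  intro r p q hp1 hp2 hq hr
  have hp0 : 0 < p := by linarith
  have hrp : 0 < r - 1 / p := by linarith
  have hr0 : 0 < r := lt_trans (by positivity) hr
  obtain ⟨C₃, hC₃, hA'⟩ := hAVG r p q hp1 hp2 hq hr
  have hA : PAvg r p q C₃ := hA'
  obtain ⟨C₁, hC₁, hT⟩ := hTA (kk r) (2 * kk r + 1)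
  obtain ⟨C₂, hC₂, hR⟩ := hTB (kk r) (2 * kk r + 1) (by omega)
  obtain ⟨M, hM⟩ : ∃ M : ℕ, M = 2 * kk r + 1 := ⟨_, rfl⟩
  rw [← hM] at hT hR
  have hMr : 2 * (r - 1 / p) + 1 ≤ (M : ℝ) := by
    have h1 : r ≤ (kk r : ℝ) := by
      unfold kk
      push_cast
      linarith [Nat.le_ceil r]
    have h2 : 0 < 1 / p := by positivity
    rw [hM]
    push_cast
    linarith
  obtain ⟨D, hD⟩ : ∃ D : ℝ, D = C₁ * C₁ * (C₃ * C₁ * C₁) := ⟨_, rfl⟩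
  have hD0 : 0 < D := by rw [hD]; positivity
  refine ⟨M * D + M * (M * D) + 2 * (C₃ * C₂ * C₁), by positivity, ?_⟩
  intro e n ρ s₀ j sp sm G a₁ a₂ x hρ hs₀ hG hGn hsp hspn hsm
  obtain ⟨k1, k2, k3, k4⟩ := hCST r p q (e + 2) (by linarith) (by linarith)
  obtain ⟨A, hAd⟩ : ∃ A : ℝ, A = (2 : ℝ) ^ ((r - 1 / p) * ((n : ℝ) + 2 * ρ)) := ⟨_, rfl⟩
  obtain ⟨B, hBd⟩ : ∃ B : ℝ, B = (2 : ℝ) ^ (-(((n : ℝ) + 2 * ρ) / q)) := ⟨_, rfl⟩
  obtain ⟨Gp, hGp⟩ : ∃ Gp : ℝ, Gp = (G.card : ℝ) ^ (-(1 - 1 / p)) := ⟨_, rfl⟩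
  obtain ⟨h, hh⟩ : ∃ h : ℝ, h = (1 / 2 : ℝ) ^ ρ := ⟨_, rfl⟩
  have hA0 : 0 < A := by rw [hAd]; positivity
  have hB0 : 0 < B := by rw [hBd]; positivity
  have hGp0 : 0 ≤ Gp := by rw [hGp]; positivity
  have hh0 : 0 < h := by rw [hh]; positivity
  have hh1 : h ≤ 1 := by rw [hh]; exact pow_le_one₀ (by norm_num) (by norm_num)
  obtain ⟨t1, _, t3, t4⟩ := hT a₁ h hh0 hh1
  obtain ⟨t1', t2', t3', _⟩ := hT a₂ h hh0 hh1
  have t2 := (hT a₁ h hh0 hh1).2.1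
  have r1 := hR a₁ h hh0 hh1
  have r2 := hR a₂ h hh0 hh1
  obtain ⟨J, hJ⟩ : ∃ J : ℝ, J = (1 / 2 : ℝ) ^ j := ⟨_, rfl⟩
  have hJ0 : 0 < J := by rw [hJ]; positivity
  have hJ1 : J ≤ 1 := by rw [hJ]; exact pow_le_one₀ (by norm_num) (by norm_num)
  -- scaled single bumps
  have sc : ∀ (l L : ℝ) (s β₁ β₂ : ℕ), s ≤ n → β₁ < M → β₂ < M → |l| ≤ C₁ * C₁ * L → 0 ≤ L →
      L ≤ 1 → Cost r p q (fun z : TT (e + 2) => l * tb (fun y => y ^ β₁ * gg y)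
        (fun y => y ^ β₂ * gg y) n ρ s x (pr z)) (D * L * A) (D * B) := by
    intro l L s β₁ β₂ hs hb1 hb2 hl hL0 hL1
    have h1 := tb_cost hA e n ρ s C₁ C₁ _ _ x (t4 β₁ hb1) (t4 β₂ hb2) hs hρ
    rw [← hAd, ← hBd] at h1
    have h2 := k1 _ _ _ l h1
    refine k4 _ _ _ _ _ ?_ ?_ h2
    · have : D * L * A = (C₁ * C₁ * L) * (C₃ * C₁ * C₁ * A) := by rw [hD]; ring
      rw [this]
      exact mul_le_mul_of_nonneg_right hl (by positivity)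
    · have h3 : |l| ≤ C₁ * C₁ := hl.trans (by nlinarith [mul_pos hC₁ hC₁])
      have : D * B = (C₁ * C₁) * (C₃ * C₁ * C₁ * B) := by rw [hD]; ring
      rw [this]
      exact mul_le_mul_of_nonneg_right h3 (by positivity)
  -- part 1
  have p1 : Cost r p q (fun z : TT (e + 2) => ∑ β ∈ Finset.range M,
      iteratedDeriv β gg a₁ / (β.factorial : ℝ) * (iteratedDeriv β gg a₂ / (β.factorial : ℝ)) *
        h ^ (2 * β) * ((G.card : ℝ)⁻¹ *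
          ∑ s ∈ G, tb (fun y => y ^ β * gg y) (fun y => y ^ β * gg y) n ρ s x (pr z)))
      (M * (D * Gp * A)) (M * (D * B)) := by
    have h1 := k3 ℕ (Finset.range M) (fun β z => iteratedDeriv β gg a₁ / (β.factorial : ℝ) *
      (iteratedDeriv β gg a₂ / (β.factorial : ℝ)) * h ^ (2 * β) * ((G.card : ℝ)⁻¹ *
          ∑ s ∈ G, tb (fun y => y ^ β * gg y) (fun y => y ^ β * gg y) n ρ s x (pr z)))
      (fun _ => D * Gp * A) (fun _ => D * B) (fun _ _ => by positivity) (fun _ _ => by positivity)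
      (by
        intro β hβ
        have hb := Finset.mem_range.mp hβ
        have h1 := avg_cost hA e n ρ C₁ C₁ _ _ G x (t4 β hb) (t4 β hb) hG hGn hρ
        rw [← hAd, ← hBd, ← hGp] at h1
        have h2 := k1 _ _ _ (iteratedDeriv β gg a₁ / (β.factorial : ℝ) *
          (iteratedDeriv β gg a₂ / (β.factorial : ℝ)) * h ^ (2 * β)) h1
        have hl : |iteratedDeriv β gg a₁ / (β.factorial : ℝ) *
          (iteratedDeriv β gg a₂ / (β.factorial : ℝ)) * h ^ (2 * β)| ≤ C₁ * C₁ := by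
          rw [abs_mul, abs_mul]
          have h3 := t3 β hb
          have h4 := t3' β hb
          have h5 : |h ^ (2 * β)| ≤ 1 := by
            rw [abs_of_nonneg (by positivity)]
            exact pow_le_one₀ hh0.le hh1
          calc _ ≤ C₁ * C₁ * 1 := mul_le_mul (mul_le_mul h3 h4 (abs_nonneg _) hC₁.le) h5
                (abs_nonneg _) (by positivity)
            _ = C₁ * C₁ := mul_one _
        refine k4 _ _ _ _ _ ?_ ?_ h2
        · have : D * Gp * A = (C₁ * C₁) * (C₃ * C₁ * C₁ * Gp * A) := by rw [hD]; ring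
          rw [this]
          exact mul_le_mul_of_nonneg_right hl (by positivity)
        · have : D * B = (C₁ * C₁) * (C₃ * C₁ * C₁ * B) := by rw [hD]; ring
          rw [this]
          exact mul_le_mul_of_nonneg_right hl (by positivity))
    simp only [Finset.sum_const, Finset.card_range, nsmul_eq_mul] at h1
    exact h1
  -- part 2
  have coef : ∀ (β₁ β₂ u : ℕ), β₁ < M → β₂ < M → j ≤ u →
      |iteratedDeriv β₁ gg a₁ / (β₁.factorial : ℝ) * (iteratedDeriv β₂ gg a₂ /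
        (β₂.factorial : ℝ)) * h ^ (β₁ + β₂) * (1 / 2 : ℝ) ^ u| ≤ C₁ * C₁ * J := by
    intro β₁ β₂ u hb1 hb2 hu
    rw [abs_mul, abs_mul, abs_mul]
    have h3 := t3 β₁ hb1
    have h4 := t3' β₂ hb2
    have h5 : |h ^ (β₁ + β₂)| ≤ 1 := by
      rw [abs_of_nonneg (by positivity)]
      exact pow_le_one₀ hh0.le hh1
    have h6 : |(1 / 2 : ℝ) ^ u| ≤ J := by
      rw [abs_of_nonneg (by positivity), hJ]
      exact pow_le_pow_of_le_one (by norm_num) (by norm_num) hu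
    calc _ ≤ C₁ * C₁ * 1 * J := mul_le_mul (mul_le_mul (mul_le_mul h3 h4 (abs_nonneg _) hC₁.le) h5
                (abs_nonneg _) (by positivity)) h6 (abs_nonneg _) (by positivity)
      _ = C₁ * C₁ * J := by ring
  have p2o : ∀ β₁ ∈ Finset.range M, ∀ β₂ ∈ Finset.range M,
      Cost r p q (fun z : TT (e + 2) => offd n ρ s₀ sp sm a₁ a₂ β₁ β₂ x (pr z))
        (D * J * A) (D * B) := by
    intro β₁ hβ₁ β₂ hβ₂
    have hb1 := Finset.mem_range.mp hβ₁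
    have hb2 := Finset.mem_range.mp hβ₂
    unfold offd
    split_ifs with c1 c2
    · rw [← hh]
      refine sc _ J sp β₁ β₂ hspn hb1 hb2 (coef β₁ β₂ _ hb1 hb2 ?_) hJ0.le hJ1
      have h1 : j ≤ sp - s₀ := by omega
      have h2 : 1 ≤ β₁ - β₂ := by omega
      calc j = j * 1 := (mul_one j).symm
        _ ≤ _ := Nat.mul_le_mul h1 h2
    · rw [← hh]
      refine sc _ J sm β₁ β₂ (by omega) hb1 hb2 (coef β₁ β₂ _ hb1 hb2 ?_) hJ0.le hJ1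
      have h1 : j ≤ s₀ - sm := by omega
      have h2 : 1 ≤ β₂ - β₁ := by omega
      calc j = j * 1 := (mul_one j).symm
        _ ≤ _ := Nat.mul_le_mul h1 h2
    · have h0 := sc 0 J s₀ β₁ β₂ hs₀ hb1 hb2 (by rw [abs_zero]; positivity) hJ0.le hJ1
      simp only [zero_mul] at h0
      exact h0
  have p2 : Cost r p q (fun z : TT (e + 2) => ∑ β₁ ∈ Finset.range M, ∑ β₂ ∈ Finset.range M,
      offd n ρ s₀ sp sm a₁ a₂ β₁ β₂ x (pr z)) (M * (M * (D * J * A))) (M * (M * (D * B))) := by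
    have h1 := k3 ℕ (Finset.range M) (fun β₁ z => ∑ β₂ ∈ Finset.range M,
      offd n ρ s₀ sp sm a₁ a₂ β₁ β₂ x (pr z)) (fun _ => M * (D * J * A)) (fun _ => M * (D * B))
      (fun _ _ => by positivity) (fun _ _ => by positivity) (by
        intro β₁ hβ₁
        have h2 := k3 ℕ (Finset.range M) (fun β₂ z => offd n ρ s₀ sp sm a₁ a₂ β₁ β₂ x (pr z))
          (fun _ => D * J * A) (fun _ => D * B) (fun _ _ => by positivity)
          (fun _ _ => by positivity) (fun β₂ hβ₂ => p2o β₁ hβ₁ β₂ hβ₂)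
        simp only [Finset.sum_const, Finset.card_range, nsmul_eq_mul] at h2
        exact h2)
    simp only [Finset.sum_const, Finset.card_range, nsmul_eq_mul] at h1
    exact h1
  -- part 3 and 4
  have p3 := tb_cost hA e n ρ s₀ _ _ _ _ x r1 t1' hs₀ hρ
  have p4 := tb_cost hA e n ρ s₀ _ _ _ _ x t2 r2 hs₀ hρ
  rw [← hAd, ← hBd] at p3 p4
  have hM0 : (0 : ℝ) ≤ M := Nat.cast_nonneg M
  have hhM : h ^ M ≤ 1 := pow_le_one₀ hh0.le hh1
  have hhM0 : 0 < h ^ M := by positivity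
  have tot := k2 _ _ _ _ _ _ (by positivity) (by positivity) (by positivity) (by positivity)
    (k2 _ _ _ _ _ _ (by positivity) (by positivity) (by positivity) (by positivity)
      (k2 _ _ _ _ _ _ (by positivity) (by positivity) (by positivity) (by positivity) p1 p2) p3) p4
  have tot2 : Cost r p q (fun z : TT (e + 2) => hcor M n ρ s₀ sp sm G a₁ a₂ x (pr z))
      (M * (D * Gp * A) + M * (M * (D * J * A)) + C₃ * (C₂ * h ^ M) * C₁ * A +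
        C₃ * C₁ * (C₂ * h ^ M) * A)
      (M * (D * B) + M * (M * (D * B)) + C₃ * (C₂ * h ^ M) * C₁ * B +
        C₃ * C₁ * (C₂ * h ^ M) * B) := by
    unfold hcor
    rw [← hh]
    exact tot
  clear tot
  rw [← hM]
  -- exponent arithmetic
  have hAs : A = (2 : ℝ) ^ ((r - 1 / p) * (n : ℝ)) * (2 : ℝ) ^ ((r - 1 / p) * (2 * (ρ : ℝ))) := by
    rw [hAd, ← Real.rpow_add (by norm_num)]
    congr 1
    ring
  have hJs : J * (2 : ℝ) ^ ((r - 1 / p) * (2 * (ρ : ℝ))) =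
      (2 : ℝ) ^ ((r - 1 / p) * (2 * (ρ : ℝ)) - j) := by
    rw [Real.rpow_sub (by norm_num), Real.rpow_natCast, hJ, one_div, inv_pow]
    field_simp
  have hHs : h ^ M * (2 : ℝ) ^ ((r - 1 / p) * (2 * (ρ : ℝ))) ≤ (2 : ℝ) ^ (-(ρ : ℝ)) := by
    have h1 : h ^ M = (2 : ℝ) ^ (-((ρ : ℝ) * M)) := by
      rw [Real.rpow_neg (by norm_num), hh, ← pow_mul, one_div, inv_pow]
      congr 1
      rw [← Nat.cast_mul, Real.rpow_natCast]
    rw [h1, ← Real.rpow_add (by norm_num)]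
    apply Real.rpow_le_rpow_of_exponent_le (by norm_num)
    have h2 : (0 : ℝ) ≤ ρ := Nat.cast_nonneg ρ
    nlinarith only [hMr, h2]
  refine k4 _ _ _ _ _ ?_ ?_ tot2
  · obtain ⟨N2, hN2⟩ : ∃ N2 : ℝ, N2 = (2 : ℝ) ^ ((r - 1 / p) * (n : ℝ)) := ⟨_, rfl⟩
    obtain ⟨R2, hR2⟩ : ∃ R2 : ℝ, R2 = (2 : ℝ) ^ ((r - 1 / p) * (2 * (ρ : ℝ))) := ⟨_, rfl⟩
    obtain ⟨Q2, hQ2⟩ : ∃ Q2 : ℝ, Q2 = (2 : ℝ) ^ (-(ρ : ℝ)) := ⟨_, rfl⟩
    rw [← hR2] at hJs hHs hAs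
    rw [← hN2] at hAs
    rw [← hQ2] at hHs
    rw [← hJs, ← hR2, ← hN2, ← hQ2, ← hGp, hAs]
    have hN0 : 0 < N2 := by rw [hN2]; positivity
    have hR0 : 0 < R2 := by rw [hR2]; positivity
    have hQ0 : 0 < Q2 := by rw [hQ2]; positivity
    have y1 : 0 ≤ D * N2 * (Gp * R2) := by positivity
    have y2 : 0 ≤ D * N2 * (J * R2) := by positivity
    have y3 : 0 ≤ D * N2 * Q2 := by positivity
    have y4 : 0 ≤ (M : ℝ) * (D * N2 * (Gp * R2)) := by positivity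
    have z0 : C₃ * (C₂ * h ^ M) * C₁ * (N2 * R2) ≤ C₃ * C₂ * C₁ * (N2 * Q2) := by
      have : C₃ * (C₂ * h ^ M) * C₁ * (N2 * R2) = C₃ * C₂ * C₁ * (N2 * (h ^ M * R2)) := by ring
      rw [this]
      gcongr
    have z0' : C₃ * C₁ * (C₂ * h ^ M) * (N2 * R2) ≤ C₃ * C₂ * C₁ * (N2 * Q2) := by
      have : C₃ * C₁ * (C₂ * h ^ M) * (N2 * R2) = C₃ * C₂ * C₁ * (N2 * (h ^ M * R2)) := by ring
      rw [this]
      gcongr
    have w1 : 0 ≤ (M : ℝ) * D * N2 * (J * R2 + Q2) := by positivity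
    have w2 : 0 ≤ (M : ℝ) * (M * D) * N2 * (Gp * R2 + Q2) := by positivity
    have w3 : 0 ≤ 2 * (C₃ * C₂ * C₁) * N2 * (Gp * R2 + J * R2) := by positivity
    nlinarith only [z0, z0', w1, w2, w3]
  · rw [← hBd]
    have z1 : C₃ * (C₂ * h ^ M) * C₁ * B ≤ C₃ * C₂ * C₁ * B := by
      have : C₃ * (C₂ * h ^ M) * C₁ * B = C₃ * C₂ * C₁ * B * h ^ M := by ring
      rw [this]
      exact mul_le_of_le_one_right (by positivity) hhM
    have z2 : C₃ * C₁ * (C₂ * h ^ M) * B ≤ C₃ * C₂ * C₁ * B := by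
      have : C₃ * C₁ * (C₂ * h ^ M) * B = C₃ * C₂ * C₁ * B * h ^ M := by ring
      rw [this]
      exact mul_le_of_le_one_right (by positivity) hhM
    nlinarith only [z1, z2]

end Pool.Agent.Helper38.SN
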